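import Pool.Agent.MP_c481b3_nt.H63.Defs

/-! Many good primes along a sequence. -/

namespace Pool.Agent.MP_c481b3_nt.H73

open Filter Topology Finset
open Pool.Agent.MP_c481b3_nt.H63
open ArithmeticFunction ArithmeticFunction.vonMangoldt

lemma jac_mod {q r : ℕ} (h : r ∣ q) (n : ℕ) :
    jacobiSym ((n % q : ℕ) : ℤ) r = jacobiSym (n : ℤ) r := by
  refine jacobiSym.mod_left' ?_
  push_cast
  exact Int.emod_emod_of_dvd _ (Int.natCast_dvd_natCast.mpr h)

/-- the Jacobi symbol on residues -/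
def jh {q : ℕ} [NeZero q] (r : ℕ) (h : r ∣ q) : ZMod q →* ℤ where
  toFun a := jacobiSym (a.val : ℤ) r
  map_one' := by
    rw [ZMod.val_one_eq_one_mod, jac_mod h]
    simp
  map_mul' a b := by
    rw [ZMod.val_mul, jac_mod h]
    push_cast
    exact jacobiSym.mul_left _ _ _

lemma exists_classes (S : Finset ℕ) (q : ℕ) [NeZero q] (h8 : 8 ∣ q) (hS : ∀ r ∈ S, r ∣ q) :
    ∃ A : Finset (ZMod q), (∀ a ∈ A, IsUnit a) ∧ q.totient ≤ A.card * (4 * 2 ^ S.card) ∧
      ∀ l : ℕ, l.Prime → (l : ZMod q) ∈ A → Good S l := by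
  classical
  let F : (ZMod q)ˣ →* (ZMod 8)ˣ × (S → ℤˣ) :=
    (ZMod.unitsMap h8).prod (MonoidHom.pi fun r : S => Units.map (jh r.1 (hS r.1 r.2)))
  refine ⟨(Finset.univ.filter (fun u : (ZMod q)ˣ => F u = 1)).image
    (fun u : (ZMod q)ˣ => -(u : ZMod q)), ?_, ?_, ?_⟩
  · intro a ha
    obtain ⟨u, -, rfl⟩ := Finset.mem_image.mp ha
    exact u.isUnit.neg
  · rw [Finset.card_image_of_injective _ (fun u v h => Units.ext (neg_injective h))]
    have h1 := F.ker.card_mul_index
    rw [Subgroup.index_ker] at h1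
    have h2 : Nat.card F.range ≤ 4 * 2 ^ S.card := by
      have h3 : Nat.card F.range ≤ Nat.card ((ZMod 8)ˣ × (S → ℤˣ)) :=
        Nat.card_le_card_of_injective _ Subtype.val_injective
      refine h3.trans (le_of_eq ?_)
      rw [Nat.card_prod, Nat.card_pi, Nat.card_eq_fintype_card, ZMod.card_units_eq_totient]
      simp only [Nat.card_eq_fintype_card, Fintype.card_units_int, prod_const, card_univ,
        Fintype.card_coe]
      rfl
    have h4 : Nat.card F.ker = (Finset.univ.filter (fun u : (ZMod q)ˣ => F u = 1)).card := by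
      rw [← Fintype.card_subtype, ← Nat.card_eq_fintype_card]
      rfl
    rw [← h4, ← ZMod.card_units_eq_totient, ← Nat.card_eq_fintype_card, ← h1]
    exact Nat.mul_le_mul_left _ h2
  · intro l hl ha
    obtain ⟨u, hu, hul⟩ := Finset.mem_image.mp ha
    have hu1 : F u = 1 := (Finset.mem_filter.mp hu).2
    have hu2 : (u : ZMod q) = -(l : ZMod q) := by rw [← hul, neg_neg]
    refine ⟨hl, ?_, ?_⟩
    · have h1 : ZMod.unitsMap h8 u = 1 := congrArg Prod.fst hu1
      have h2 : ZMod.castHom h8 (ZMod 8) (u : ZMod q) = 1 := by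
        have := congrArg Units.val h1
        simpa [ZMod.unitsMap_def] using this
      rw [hu2, map_neg, map_natCast] at h2
      have h3 : (l : ZMod 8) = ((7 : ℕ) : ZMod 8) := by
        have : (l : ZMod 8) = -1 := by rw [← h2, neg_neg]
        rw [this]; rfl
      exact (ZMod.natCast_eq_natCast_iff' l 7 8).mp h3
    · intro r hr
      have h1 : Units.map (jh r (hS r hr)) u = 1 := congrFun (congrArg Prod.snd hu1) ⟨r, hr⟩
      have h2 : jacobiSym ((u : ZMod q).val : ℤ) r = 1 := congrArg Units.val h1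
      rw [← h2]
      refine jacobiSym.mod_left' ?_
      have h3 : (((u : ZMod q).val : ℤ) : ZMod q) = ((-(l : ℤ) : ℤ) : ZMod q) := by
        push_cast
        rw [ZMod.natCast_zmod_val, hu2]
      have h4 := (ZMod.intCast_eq_intCast_iff _ _ _).mp h3
      exact (h4.of_dvd (Int.natCast_dvd_natCast.mpr (hS r hr))).symm

lemma abel_nonneg (c w : ℕ → ℝ) (hc : ∀ N, 0 ≤ ∑ i ∈ range N, c i) (hw : Antitone w)
    (hw0 : ∀ i, 0 ≤ w i) (N : ℕ) : 0 ≤ ∑ i ∈ range N, c i * w i := by
  have key : ∀ N, w N * ∑ i ∈ range (N + 1), c i ≤ ∑ i ∈ range (N + 1), c i * w i := by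
    intro N
    induction N with
    | zero => simp [mul_comm]
    | succ N ih =>
      rw [Finset.sum_range_succ _ (N + 1), Finset.sum_range_succ _ (N + 1)]
      have h1 := mul_le_mul_of_nonneg_right (hw (Nat.le_succ N)) (hc (N + 1))
      nlinarith
  rcases N with _ | N
  · simp
  · exact (mul_nonneg (hw0 N) (hc _)).trans (key N)

/-- the weight of good primes -/
noncomputable def gw (S : Finset ℕ) (n : ℕ) : ℝ := if Good S n then Real.log n else 0

lemma gw_nonneg (S : Finset ℕ) (n : ℕ) : 0 ≤ gw S n := by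
  unfold gw
  split_ifs
  · exact Real.log_natCast_nonneg n
  · exact le_rfl

lemma sum_gw_le (S : Finset ℕ) (N : ℕ) :
    ∑ i ∈ range (N + 1), gw S i ≤ ((range (N + 1)).filter (Good S)).card * Real.log N := by
  unfold gw
  rw [← Finset.sum_filter, ← nsmul_eq_mul]
  refine Finset.sum_le_card_nsmul _ _ _ fun n hn => ?_
  obtain ⟨h1, h2⟩ := Finset.mem_filter.mp hn
  have h3 : n ≤ N := Nat.lt_succ_iff.mp (Finset.mem_range.mp h1)
  exact Real.log_le_log (by exact_mod_cast h2.1.pos) (by exact_mod_cast h3)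

lemma theta_bound (S : Finset ℕ) (d : ℝ) (hd : 0 ≤ d)
    (h : ∀ᶠ Y : ℕ in atTop, (((range (Y + 1)).filter (Good S)).card : ℝ) < d * (Y / Real.log Y)) :
    ∃ C : ℝ, 0 ≤ C ∧ ∀ N : ℕ, ∑ i ∈ range (N + 1), gw S i ≤ d * N + C := by
  obtain ⟨N0, hN0⟩ := eventually_atTop.mp (h.and (eventually_ge_atTop 2))
  refine ⟨∑ i ∈ range (N0 + 1), gw S i, Finset.sum_nonneg fun i _ => gw_nonneg S i, fun N => ?_⟩
  rcases le_total N0 N with hN | hN
  · obtain ⟨h1, h2⟩ := hN0 N hN
    have h3 : 0 < Real.log N := Real.log_pos (by exact_mod_cast h2)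
    have h4 := sum_gw_le S N
    have h5 := mul_le_mul_of_nonneg_right h1.le h3.le
    have h6 : d * (N / Real.log N) * Real.log N = d * N := by field_simp
    have h7 : 0 ≤ ∑ i ∈ range (N0 + 1), gw S i := Finset.sum_nonneg fun i _ => gw_nonneg S i
    linarith
  · have h1 : ∑ i ∈ range (N + 1), gw S i ≤ ∑ i ∈ range (N0 + 1), gw S i :=
      Finset.sum_le_sum_of_subset_of_nonneg (Finset.range_mono (by omega))
        fun i _ _ => gw_nonneg S i
    have h2 : 0 ≤ d * N := by positivity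
    linarith

lemma sum_gw_div_le (S : Finset ℕ) (d C : ℝ) (hd : 0 ≤ d) (hC : 0 ≤ C)
    (h : ∀ N : ℕ, ∑ i ∈ range (N + 1), gw S i ≤ d * N + C) {x : ℝ} (hx : 1 < x) (N : ℕ) :
    ∑ i ∈ range N, gw S i / (i : ℝ) ^ x ≤ d * (∑' n : ℕ, 1 / (n : ℝ) ^ x) + C := by
  have hs : Summable fun n : ℕ => 1 / (n : ℝ) ^ x := Real.summable_one_div_nat_rpow.mpr hx
  have hz : 0 ≤ ∑' n : ℕ, 1 / (n : ℝ) ^ x := tsum_nonneg fun n => by positivity
  rcases N with _ | N
  · simp only [range_zero, sum_empty]; positivity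
  have g0 : gw S 0 = 0 := by simp [gw]
  have hab := abel_nonneg (fun i => d + (if i = 0 then C else 0) - gw S (i + 1))
    (fun i => 1 / ((i + 1 : ℕ) : ℝ) ^ x) ?_ ?_ (fun i => by positivity) N
  · rw [Finset.sum_range_succ', g0, zero_div, add_zero]
    have h1 : ∑ i ∈ range N, 1 / ((i + 1 : ℕ) : ℝ) ^ x ≤ ∑' n : ℕ, 1 / (n : ℝ) ^ x := by
      have h2 := hs.sum_le_tsum (range (N + 1)) (fun n _ => by positivity)
      rw [Finset.sum_range_succ'] at h2
      have h3 : 0 ≤ 1 / ((0 : ℕ) : ℝ) ^ x := by positivity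
      linarith
    have h4 : ∑ i ∈ range N, (if i = 0 then C else 0) * (1 / ((i + 1 : ℕ) : ℝ) ^ x) ≤ C := by
      simp only [ite_mul, zero_mul, Finset.sum_ite_eq', mem_range]
      split_ifs
      · simp
      · exact hC
    have h5 : ∑ i ∈ range N, (d + (if i = 0 then C else 0) - gw S (i + 1)) *
        (1 / ((i + 1 : ℕ) : ℝ) ^ x) = d * ∑ i ∈ range N, 1 / ((i + 1 : ℕ) : ℝ) ^ x +
          ∑ i ∈ range N, (if i = 0 then C else 0) * (1 / ((i + 1 : ℕ) : ℝ) ^ x) -
          ∑ i ∈ range N, gw S (i + 1) / ((i + 1 : ℕ) : ℝ) ^ x := by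
      rw [Finset.mul_sum, ← Finset.sum_add_distrib, ← Finset.sum_sub_distrib]
      refine Finset.sum_congr rfl fun i _ => ?_
      ring
    rw [h5] at hab
    have h6 := mul_le_mul_of_nonneg_left h1 hd
    linarith
  · intro M
    rcases M with _ | M
    · simp
    have h1 := h (M + 1)
    rw [Finset.sum_range_succ', g0, add_zero] at h1
    rw [Finset.sum_sub_distrib, Finset.sum_add_distrib]
    simp only [sum_const, card_range, nsmul_eq_mul, Finset.sum_ite_eq', mem_range,
      Nat.succ_pos, if_true]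
    linarith
  · intro i j hij
    have hi : (0 : ℝ) < ((i + 1 : ℕ) : ℝ) := by positivity
    refine one_div_le_one_div_of_le (Real.rpow_pos_of_pos hi _) ?_
    exact Real.rpow_le_rpow hi.le (by exact_mod_cast Nat.succ_le_succ hij) (by linarith)

lemma class_le (S : Finset ℕ) {q : ℕ} (A : Finset (ZMod q))
    (hA : ∀ l : ℕ, l.Prime → (l : ZMod q) ∈ A → Good S l) (n : ℕ) :
    ∑ a ∈ A, residueClass a n ≤
      gw S n + ∑ a ∈ A, (if n.Prime then 0 else residueClass a n) := by
  classical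
  by_cases hn : n.Prime
  · simp only [hn, if_true, sum_const_zero, add_zero]
    by_cases ha : (n : ZMod q) ∈ A
    · rw [Finset.sum_eq_single_of_mem _ ha]
      · have h1 := residueClass_le (n : ZMod q) n
        rw [vonMangoldt_apply_prime hn] at h1
        simpa [gw, hA n hn ha] using h1
      · intro b _ hb
        have h0 : n ∉ {n : ℕ | (n : ZMod q) = b} := fun h => hb (Eq.symm h)
        exact Set.indicator_of_notMem h0 _
    · rw [Finset.sum_eq_zero]
      · exact gw_nonneg S n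
      · intro b hb
        have h0 : n ∉ {n : ℕ | (n : ZMod q) = b} := fun h =>
          ha (by rw [show (n : ZMod q) = b from h]; exact hb)
        exact Set.indicator_of_notMem h0 _
  · simp only [hn, if_false]
    linarith [gw_nonneg S n]

theorem primes : PrimesStmt := by
  intro S hS
  by_contra hcon
  rw [Filter.not_frequently] at hcon
  simp only [not_le] at hcon
  set δ : ℝ := (1 / 2 : ℝ) ^ S.card with hδ
  have hδ0 : 0 < δ := by positivity
  obtain ⟨C0, hC0, hth⟩ := theta_bound S (δ / 16) (by positivity) hcon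
  let q : ℕ := 8 * ∏ r ∈ S, r
  have hq : q ≠ 0 := mul_ne_zero (by norm_num)
    (Finset.prod_ne_zero_iff.mpr fun r hr => (hS r hr).1.ne_zero)
  have : NeZero q := ⟨hq⟩
  obtain ⟨A, hA1, hA2, hA3⟩ := exists_classes S q (dvd_mul_right _ _)
    (fun r hr => (Finset.dvd_prod_of_mem _ hr).mul_left _)
  choose! Cl hCl using fun (a : ZMod q) (ha : a ∈ A) => LSeries_residueClass_lower_bound (hA1 a ha)
  let np : ZMod q → ℕ → ℝ := fun a n => (if n.Prime then 0 else residueClass a n)
  have np0 : ∀ a n, 0 ≤ np a n := fun a n => by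
    simp only [np]; split_ifs; exacts [le_rfl, residueClass_nonneg a n]
  let C1 : ℝ := ∑ a ∈ A, ∑' n : ℕ, np a n / n
  have htot : (0 : ℝ) < q.totient := by exact_mod_cast Nat.totient_pos.mpr (Nat.pos_of_ne_zero hq)
  have hcard : δ / 4 ≤ A.card * (q.totient : ℝ)⁻¹ := by
    have h1 : (q.totient : ℝ) ≤ A.card * (4 * 2 ^ S.card) := by exact_mod_cast hA2
    have h2 : δ * 2 ^ S.card = 1 := by rw [hδ, ← mul_pow]; norm_num
    rw [← div_eq_mul_inv, le_div_iff₀ htot]
    have h3 := mul_le_mul_of_nonneg_left h1 hδ0.le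
    have h4 : δ * (A.card * (4 * 2 ^ S.card)) = 4 * A.card := by
      rw [show δ * (A.card * (4 * 2 ^ S.card)) = 4 * A.card * (δ * 2 ^ S.card) by ring, h2, mul_one]
    linarith
  have main : ∀ x ∈ Set.Ioc (1 : ℝ) 2, δ / 4 ≤ δ / 16 * ((x - 1) * ∑' n : ℕ, 1 / (n : ℝ) ^ x) +
      (x - 1) * (C0 + C1 + ∑ a ∈ A, Cl a) := by
    intro x hx
    have hx1 : 0 < x - 1 := sub_pos.mpr hx.1
    have hsum : ∀ a : ZMod q, Summable fun n : ℕ => residueClass a n / (n : ℝ) ^ x := fun a =>
      LSeries.summable_real_of_abscissaOfAbsConv_lt <|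
        (abscissaOfAbsConv_residueClass_le_one a).trans_lt <| mod_cast hx.1
    have h1 : ∑ a ∈ A, ((q.totient : ℝ)⁻¹ / (x - 1) - Cl a) ≤
        ∑ a ∈ A, ∑' n : ℕ, residueClass a n / (n : ℝ) ^ x :=
      Finset.sum_le_sum fun a ha => hCl a ha hx
    rw [← Summable.tsum_finsetSum fun a _ => hsum a] at h1
    have h2 : ∑' n : ℕ, ∑ a ∈ A, residueClass a n / (n : ℝ) ^ x ≤
        δ / 16 * (∑' n : ℕ, 1 / (n : ℝ) ^ x) + C0 + C1 := by
      refine Real.tsum_le_of_sum_range_le (fun n => Finset.sum_nonneg fun a _ =>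
        div_nonneg (residueClass_nonneg a n) (by positivity)) fun N => ?_
      have h3 := sum_gw_div_le S (δ / 16) C0 (by positivity) hC0 hth hx.1 N
      have h4 : ∑ n ∈ range N, ∑ a ∈ A, np a n / (n : ℝ) ^ x ≤ C1 := by
        rw [Finset.sum_comm]
        refine Finset.sum_le_sum fun a _ => ?_
        refine le_trans (Finset.sum_le_sum fun n _ => ?_)
          ((summable_residueClass_non_primes_div a).sum_le_tsum (range N)
            fun n _ => div_nonneg (np0 a n) (by positivity))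
        rcases n.eq_zero_or_pos with rfl | hn
        · simp [np]
        · refine div_le_div_of_nonneg_left (np0 a n) (by exact_mod_cast hn) ?_
          conv_lhs => rw [← Real.rpow_one n]
          exact Real.rpow_le_rpow_of_exponent_le (by exact_mod_cast hn) hx.1.le
      have h5 : ∑ n ∈ range N, ∑ a ∈ A, residueClass a n / (n : ℝ) ^ x ≤
          ∑ n ∈ range N, gw S n / (n : ℝ) ^ x + ∑ n ∈ range N, ∑ a ∈ A, np a n / (n : ℝ) ^ x := by
        rw [← Finset.sum_add_distrib]
        refine Finset.sum_le_sum fun n _ => ?_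
        rw [← Finset.sum_div, ← Finset.sum_div, ← add_div]
        exact div_le_div_of_nonneg_right (class_le S A hA3 n) (by positivity)
      linarith
    rw [Finset.sum_sub_distrib, Finset.sum_const, nsmul_eq_mul] at h1
    have h6 : δ / 4 / (x - 1) ≤ A.card * ((q.totient : ℝ)⁻¹ / (x - 1)) := by
      rw [← mul_div_assoc]
      exact div_le_div_of_nonneg_right hcard hx1.le
    have h7 : δ / 4 / (x - 1) ≤
        δ / 16 * (∑' n : ℕ, 1 / (n : ℝ) ^ x) + (C0 + C1 + ∑ a ∈ A, Cl a) := by linarith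
    rw [div_le_iff₀ hx1] at h7
    linarith
  have t1 : Tendsto (fun x : ℝ => x - 1) (𝓝[>] 1) (𝓝 0) := by
    have : Tendsto (fun x : ℝ => x - 1) (𝓝 1) (𝓝 (1 - 1)) := (continuous_sub_right 1).tendsto 1
    rw [sub_self] at this
    exact this.mono_left nhdsWithin_le_nhds
  have t2 := (tendsto_sub_mul_tsum_nat_rpow.const_mul (δ / 16)).add
    (t1.mul_const (C0 + C1 + ∑ a ∈ A, Cl a))
  have t3 := ge_of_tendsto t2 (by
    filter_upwards [Ioc_mem_nhdsGT (show (1 : ℝ) < 2 by norm_num)] with x hx using main x hx)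
  linarith

end Pool.Agent.MP_c481b3_nt.H73
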